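import Mathlib
import Pool.Agent.H.MP_ef6db9_lc.A

set_option autoImplicit false

namespace Pool.Agent.Results.MP_ef6db9_lc.NotFinite

open Function FirstOrder Language Filter Pool.Agent.H.MP_ef6db9_lc

/-- The binary operation symbol. -/
inductive Op : ℕ → Type
  | comp : Op 2

/-- The graph of the not everywhere defined meet. -/
inductive Rl : ℕ → Type
  | meet : Rl 3

/-- The first-order signature. -/
def L : Language := ⟨Op, Rl⟩

/-- Domain of a relation. -/
def dm {X : Type} (R : Set (X × X)) : Set X := {x | ∃ y, (x, y) ∈ R}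

/-- The class of structures isomorphic to a proper structure. -/
def Rep (M : Type) [L.Structure M] : Prop :=
  ∃ (X : Type) (h : M → Set (X × X)), Injective h ∧
    (∀ a b, h (Structure.funMap (L := L) Op.comp ![a, b]) =
      {p | ∃ y, (p.1, y) ∈ h a ∧ (y, p.2) ∈ h b}) ∧
    (∀ a b, dm (h a) ∩ dm (h b) = dm (h a ∩ h b) ↔
      ∃ c, Structure.RelMap (L := L) Rl.meet ![a, b, c]) ∧
    ∀ a b c, Structure.RelMap (L := L) Rl.meet ![a, b, c] →
      h c = (h a ∩ h b) ∪ {p ∈ h a | p.1 ∉ dm (h b)} ∪ {p ∈ h b | p.1 ∉ dm (h a)}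

theorem ev_ex {ι : Type} {W : Filter ι} {X : ι → Type} [∀ i, Nonempty (X i)]
    {p : ∀ i, X i → Prop} (h : ∀ᶠ i in W, ∃ x, p i x) : ∃ x : ∀ i, X i, ∀ᶠ i in W, p i (x i) :=
  ⟨fun i => Classical.epsilon (p i), h.mono fun _ h => Classical.epsilon_spec h⟩

theorem of_local {M : Type} [L.Structure M] {ι : Type} (W : Ultrafilter ι) (X : ι → Type)
    [∀ i, Nonempty (X i)] (h : ∀ i, M → Set (X i × X i))
    (h0 : ∀ a b, a ≠ b → ∀ᶠ i in W, h i a ≠ h i b)
    (h1 : ∀ a b, ∀ᶠ i in W,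
      h i (Structure.funMap (L := L) Op.comp ![a, b]) = rcomp (h i a) (h i b))
    (h2 : ∀ a b c, Structure.RelMap (L := L) Rl.meet ![a, b, c] →
      ∀ᶠ i in W, Df (h i a) (h i b) ∧ h i c = dmeet (h i a) (h i b))
    (h3 : ∀ a b, (∀ᶠ i in W, Df (h i a) (h i b)) →
      ∃ c, Structure.RelMap (L := L) Rl.meet ![a, b, c]) : Rep M := by
  let H : M → Set ((∀ i, X i) × ∀ i, X i) := fun a => {p | ∀ᶠ i in W, (p.1 i, p.2 i) ∈ h i a}
  have d : ∀ a x, x ∈ dm (H a) ↔ ∀ᶠ i in W, x i ∈ dom (h i a) := fun a x =>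
    ⟨fun ⟨y, e⟩ => Eventually.mono e fun i e => ⟨_, e⟩,
      fun e => ev_ex (p := fun i y => (x i, y) ∈ h i a) e⟩
  have d2 : ∀ a b x, x ∈ dm (H a ∩ H b) ↔ ∀ᶠ i in W, x i ∈ dom (h i a ∩ h i b) := fun a b x =>
    ⟨fun ⟨y, e, f⟩ => (Eventually.and e f).mono fun i e => ⟨_, e⟩, fun e =>
      (ev_ex (p := fun i y => (x i, y) ∈ h i a ∩ h i b) e).imp fun _ e => eventually_and.1 e⟩
  refine ⟨∀ i, X i, H, fun a b c => ?_, fun a b => Set.ext fun p => ⟨fun c => ?_, ?_⟩,
    fun a b => ⟨fun c => h3 a b ?_, fun ⟨c, e⟩ => Set.ext fun x => ?_⟩,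
    fun a b c e => Set.ext fun p => ?_⟩
  · by_contra hn
    obtain ⟨x, hx⟩ := ev_ex (X := fun i => X i × X i) (p := fun i x => ¬ (x ∈ h i a ↔ x ∈ h i b))
      ((h0 a b hn).mono fun i d => not_forall.1 (mt Set.ext d))
    have := Set.ext_iff.1 c (fun i => (x i).1, fun i => (x i).2)
    simp only [H, Set.mem_setOf_eq, Prod.mk.eta] at this
    by_cases d : ∀ᶠ i in W, x i ∈ h i a
    · obtain ⟨i, e⟩ := (hx.and (d.and (this.1 d))).exists
      tauto
    · obtain ⟨i, e⟩ := (hx.and ((Ultrafilter.eventually_not.2 d).and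
        (Ultrafilter.eventually_not.2 (mt this.2 d)))).exists
      tauto
  · obtain ⟨x, hx⟩ := ev_ex (W := W) (p := fun i x =>
      (p.1 i, x) ∈ h i a ∧ (x, p.2 i) ∈ h i b) (by
        filter_upwards [h1 a b, c] with i d e
        rwa [d] at e)
    exact ⟨x, hx.mono fun _ d => d.1, hx.mono fun _ d => d.2⟩
  · rintro ⟨y, c, d⟩
    filter_upwards [h1 a b, c, d] with i e c d
    rw [e]
    exact ⟨_, c, d⟩
  · by_contra hn
    obtain ⟨x, hx⟩ := ev_ex (W := W) (p := fun i x => x ∈ dom (h i a) ∧ x ∈ dom (h i b) ∧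
      x ∉ dom (h i a ∩ h i b)) ((Ultrafilter.eventually_not.2 hn).mono fun i e => by
        by_contra f
        push Not at f
        exact e (Set.ext fun x => ⟨fun g => f x g.1 g.2, fun ⟨y, g⟩ => ⟨⟨y, g.1⟩, y, g.2⟩⟩))
    have := (d2 a b x).1 (c ▸ ⟨(d a x).2 (hx.mono fun _ e => e.1),
      (d b x).2 (hx.mono fun _ e => e.2.1)⟩)
    obtain ⟨i, e⟩ := (hx.and this).exists
    exact e.1.2.2 e.2
  · rw [Set.mem_inter_iff, d, d, d2, ← eventually_and]
    exact eventually_congr ((h2 a b c e).mono fun i f => Set.ext_iff.1 f.1 _)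
  · simp only [Set.mem_union, Set.mem_inter_iff, Set.mem_sep_iff, d]
    simp only [H, Set.mem_setOf_eq, ← Ultrafilter.eventually_not, ← eventually_and,
      ← Ultrafilter.eventually_or]
    exact eventually_congr ((h2 a b c e).mono fun i f => Set.ext_iff.1 f.2 _)

instance str (n : ℕ) : L.Structure (A n) where
  funMap | .comp, x => (x 0).cmp (x 1)
  RelMap | .meet, x => Mt (x 0) (x 1) (x 2)

instance (n : ℕ) : Nonempty (A n) := ⟨.z⟩

theorem ultra (U : Ultrafilter ℕ) (hU : ∀ n : ℕ, ∀ᶠ k in U, n ≤ k) :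
    Rep ((U : Filter ℕ).Product A) := by
  classical
  let M := (U : Filter ℕ).Product A
  let r : M → ∀ k, A k := Quotient.out
  have hr : ∀ a : M, ((r a : ∀ k, A k) : M) = a := Quotient.out_eq
  let j : Finset M → ∀ k, Fin (k + 2) := fun s k =>
    Classical.epsilon fun j => ∀ a ∈ s, ¬ Bad j (r a k)
  have hj : ∀ s : Finset M, ∀ k, s.card ≤ k → ∀ a ∈ s, ¬ Bad (j s k) (r a k) := by
    intro s k hk
    refine Classical.epsilon_spec (p := fun j => ∀ a ∈ s, ¬ Bad j (r a k)) ?_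
    obtain ⟨u, -, h2⟩ := Finset.exists_mem_notMem_of_card_lt_card
      (s := s.image fun a => Classical.epsilon fun j => Bad j (r a k)) (t := Finset.univ) (by
        have := Finset.card_image_le (s := s)
          (f := fun a => Classical.epsilon fun j => Bad j (r a k))
        rw [Finset.card_univ, Fintype.card_fin]
        omega)
    refine ⟨u, fun a ha e => h2 (Finset.mem_image.2 ⟨a, ha, ?_⟩)⟩
    have := Classical.epsilon_spec (p := fun j => Bad j (r a k)) ⟨u, e⟩
    generalize Classical.epsilon (fun j => Bad j (r a k)) = v at this ⊢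
    obtain ⟨S, a1, a2, l, a3, a4⟩ := this
    obtain ⟨T, b1, -, m, b3, b4⟩ := e
    have e := A.c.inj (a1.symm.trans b1)
    rw [← a4, ← b4, S.2.2 a2 a3 (e ▸ b3)]
  let V : Ultrafilter (Finset M) := .of atTop
  let W := V.bind fun s => U.map (Prod.mk s)
  have hW : ∀ {p : Finset M × ℕ → Prop}, (∀ᶠ s in atTop, ∀ᶠ k in U, p (s, k)) → ∀ᶠ i in W, p i :=
    fun h => Ultrafilter.of_le _ h
  have rl : ∀ a b c : ∀ k, A k, Structure.RelMap (L := L) (M := M) Rl.meet ![a, b, c] ↔
      ∀ᶠ k in U, Mt (a k) (b k) (c k) := fun a b c => by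
    refine Iff.trans ?_ (@relMap_quotient_mk' L _ _ (Ultraproduct.setoidPrestructure A U) _
      Rl.meet ![a, b, c])
    exact iff_of_eq (congrArg _ (funext fun i => by fin_cases i <;> rfl))
  refine of_local W (fun i => Pt i.2) (fun i a => Hm (j i.1 i.2) (r a i.2))
    (fun a b hab => hW (.of_forall fun s => ?_)) (fun a b => hW (.of_forall fun s => ?_))
    (fun a b c e => hW ?_) fun a b e => ?_
  · have : ¬ ∀ᶠ k in U, r a k = r b k := fun e => hab ((hr a).symm.trans
      ((Quotient.sound e).trans (hr b)))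
    exact (Ultrafilter.eventually_not.2 this).mono fun k e => (Hm_inj _).ne e
  · have := Ultraproduct.funMap_cast (L := L) (u := U) Op.comp ![r a, r b]
    have e1 : (fun i => ((![r a, r b] i : ∀ k, A k) : M)) = ![a, b] :=
      funext (Fin.forall_fin_two.2 ⟨hr a, hr b⟩)
    rw [e1] at this
    refine Eventually.mono (Quotient.exact
      ((hr (Structure.funMap (L := L) Op.comp ![a, b])).trans this)) fun k e => ?_
    simp only [e]
    exact Hm_cmp ..
  · rw [← hr a, ← hr b, ← hr c, rl] at e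
    filter_upwards [eventually_ge_atTop {a, b}] with s hs
    filter_upwards [e, hU s.card] with k e hk
    exact Hm_mt _ e (hj s k hk a (hs (by simp))) (hj s k hk b (hs (by simp)))
  · obtain ⟨s, hs⟩ := Eventually.exists (f := V) (p := fun s => ∀ᶠ k in U,
      Df (Hm (j s k) (r a k)) (Hm (j s k) (r b k))) e
    obtain ⟨c, hc⟩ := ev_ex (p := fun k c => Mt (r a k) (r b k) c)
      (Eventually.mono hs fun k e => Hm_df _ e)
    exact ⟨c, by rw [← hr a, ← hr b, rl]; exact hc⟩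

theorem result : ¬ ∃ T : L.Theory, T.Finite ∧
    ∀ (M : Type) [L.Structure M] [Nonempty M], M ⊨ T ↔ Rep M := by
  rintro ⟨T, hT, h⟩
  let U := hyperfilter ℕ
  have h1 := (h _).2 (ultra U fun n => Nat.hyperfilter_le_atTop (eventually_ge_atTop n))
  have h2 : ∀ᶠ k in U, ∀ φ ∈ T, A k ⊨ φ :=
    (eventually_all_finite hT).2 fun φ hφ =>
      (Ultraproduct.sentence_realize φ).1 (h1.realize_of_mem φ hφ)
  obtain ⟨k, hk⟩ := h2.exists
  obtain ⟨X, g, a, b, -, d⟩ := (h _).1 ⟨fun φ hφ => hk φ hφ⟩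
  exact not_rep a b d

end Pool.Agent.Results.MP_ef6db9_lc.NotFinite
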